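import Pool.Agent.K7.H52.TF.Gen
import Pool.Agent.K7.H52.TF.Temp2
set_option autoImplicit false

/-!
A class of tempered polynomials.
-/

namespace Pool.Agent.K7.H1.TT

open Pool.Agent.K7.H52.TF

open MvPolynomial

/-- The smallest class of polynomials which contains the tempered polynomials, the polynomials

* `∑_i a_i y^{s_i}` with roots of unity `a_i` and affinely independent exponents `s_0, ..., s_k`,
* monic polynomials in one variable with integral coefficients which divide `(Y^N - 1)^M`,
* `y_0 y_1 (y_0 + 1/y_0 + y_1 + 1/y_1 - 4 e)`, `e = ± 1`,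

and with `P(y_0, ..., y_{q-1})` and `Q(y_0, ..., y_{q-1})` also `P Q`, `P` as a polynomial in more
variables and `P(y^{M_0}, ..., y^{M_{q-1}})` for `det M ≠ 0`. -/
inductive Admissible.{u, v} {K : Type u} [Field K] :
    ∀ {q : ℕ}, MvPolynomial (Fin q) K → Prop
  | tempered {q : ℕ} (P : MvPolynomial (Fin q) K) : Tempered.{u, v} P → Admissible P
  | sum {q k : ℕ} (a : Fin (k + 1) → K) (s : Fin (k + 1) → Fin q →₀ ℕ) :
      (∀ i, ∃ m : ℕ, 0 < m ∧ a i ^ m = 1) →
      (LinearIndependent ℚ fun (i : Fin k) (l : Fin q) => ((s i.succ l : ℚ) - (s 0 l : ℚ))) →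
      Admissible (∑ i, monomial (s i) (a i))
  | oneVariable (p : Polynomial K) (N M : ℕ) : 0 < N → p.Monic →
      (∀ i, IsIntegral ℤ (p.coeff i)) → p ∣ (Polynomial.X ^ N - 1) ^ M →
      Admissible (p.eval₂ C (X 0) : MvPolynomial (Fin 1) K)
  | nodal (e : K) : e ^ 2 = 1 →
      Admissible (X 0 ^ 2 * X 1 + X 1 + X 0 * X 1 ^ 2 + X 0 - C (4 * e) * (X 0 * X 1) :
        MvPolynomial (Fin 2) K)
  | product {q : ℕ} (P Q : MvPolynomial (Fin q) K) : Admissible P → Admissible Q →
      Admissible (P * Q)
  | moreVariables {p q : ℕ} (P : MvPolynomial (Fin p) K) (ι : Fin p → Fin q) :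
      Function.Injective ι → Admissible P → Admissible (rename ι P)
  | monomials {q : ℕ} (P : MvPolynomial (Fin q) K) (M : Fin q → Fin q →₀ ℕ) :
      (Matrix.of fun i l : Fin q => (M i l : ℤ)).det ≠ 0 → Admissible P →
      Admissible (bind₁ (fun l => monomial (M l) 1) P)

theorem Admissible.isTempered.{u, v} {K : Type u} [Field K] {q : ℕ} {P : MvPolynomial (Fin q) K}
    (h : Admissible.{u, v} P) : Tempered.{u, v} P := by
  induction h with
  | tempered P h => exact h
  | sum a s ha hs => exact tempered_sumPoly a s ha hs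
  | oneVariable p N M hN hp hi h => exact tempered_cyc hp hi hN h
  | nodal e he => exact tempered_nodal he
  | product P Q _ _ hP hQ => exact tempered_mul hP hQ
  | moreVariables P ι hι _ hP => exact tempered_rename hP ι hι
  | monomials P M hM _ hP => exact tempered_subMono hP M hM

end Pool.Agent.K7.H1.TT
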