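import Pool.Agent.K7.H1.PP.Def
set_option autoImplicit false

/-!
The right sides `y^{-δ} ψ(y)` of the equations of the fibrations `λ Φ(x) = y^{-δ} ψ(y)` over toric
arrangements.
-/

namespace Pool.Agent.K7.H1.TT

open MvPolynomial

open Pool.Agent.K7.H1.TO

/-- The Laurent polynomial `y^{-δ} ψ(y)` as arrangement without characters: `(fib ψ δ).Phi 1` is
`y^{-δ} ψ(y)`. -/
noncomputable def fib {K : Type*} [Field K] {q : ℕ} (psi : MvPolynomial (Fin (q + 1)) K)
    (δ : Fin (q + 1) → ℤ) : Arr K q 0 where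
  al e := e.elim0
  r e := e.elim0
  z e := e.elim0
  w e := e.elim0
  ga := δ
  g := psi

theorem fib_Phi {K : Type*} [Field K] {q : ℕ} (psi : MvPolynomial (Fin (q + 1)) K)
    (δ : Fin (q + 1) → ℤ) : (fib psi δ).Phi 1 = rename Sum.inl psi * mon (-δ) := by
  unfold Arr.Phi
  rw [Finset.univ_eq_empty, Finset.prod_empty, mul_one, C_1, one_mul]
  rfl

/-- `δ` belongs to the interior of the Newton polytope of `ψ`: every nonzero linear form takes at
some exponent of `ψ` a value larger than at `δ`. -/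
def Interior {K : Type*} [Field K] {q : ℕ} (psi : MvPolynomial (Fin (q + 1)) K)
    (δ : Fin (q + 1) → ℤ) : Prop :=
  ∀ ν : Fin (q + 1) → ℤ, ν ≠ 0 → ∃ s ∈ psi.support, ∑ j, ν j * δ j < ∑ j, ν j * (s j : ℤ)

/-- The units `u_0, ..., u_d, y_0, ..., y_q`, where `u_l = (x^α - ζ_{e,k_l+1}) / (x^α - ζ_{e,0})`,
`e = T_l`, `α = α_e`. -/
noncomputable def fent {K : Type*} [Field K] {d q m : ℕ} (F : Arr K d m)
    (psi : MvPolynomial (Fin (q + 1)) K) (δ : Fin (q + 1) → ℤ) (lam : K)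
    (T : Fin (d + 1) → Fin m) (k : ∀ l, Fin (F.r (T l))) :
    Fin (d + 1 + (q + 1)) → (PP.PRing F (fib psi δ) lam)ˣ :=
  Fin.append (PP.entx F (fib psi δ) lam T k) (PP.uy F (fib psi δ) lam)

end Pool.Agent.K7.H1.TT
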