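import Pool.Agent.K7.H1.TT.Def
import Pool.Agent.K7.H1.PP.Maps
import Pool.Agent.K7.H1.TU.Main
set_option autoImplicit false

/-!
The ends of the fibres, and small tori near a vertex of the arrangement and an end of the fibre.
-/

namespace Pool.Agent.K7.H1.TT

open MvPolynomial

open Pool.Agent.TH826.MK (Torus Good pairing symb)

open Pool.Agent.TH577.UA (mmon contDiff_mmon mmon_zero_ne mmon_zero_eq)

open Pool.Agent.K7.H1.AH (mmon_eq crd)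

open Pool.Agent.K7.H1.TO Pool.Agent.K7.H1.TO.Arr

open Pool.Agent.K7.H1.TU (exists_A xe xe_ne prod_xe)

open Pool.Agent.K7.H1.PP (vf exists_map contDiff_xe')

variable {K : Type*} [Field K] {q : ℕ}

/-- the exponent as integral vector -/
def toZ {n : ℕ} (s : Fin n →₀ ℕ) : Fin n → ℤ := fun j => (s j : ℤ)

theorem exists_A2 {psi : MvPolynomial (Fin (q + 1)) K} (hpsi : psi ≠ 0) :
    ∃ A : Fin (q + 1) → Fin (q + 1) → ℤ, (Matrix.of A).det ≠ 0 ∧ ∃ s0 ∈ psi.support,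
      ∀ s ∈ psi.support, s ≠ s0 → ∀ k, 0 < A k ⬝ᵥ (toZ s0 - toZ s) := by
  classical
  set S := psi.support.offDiag with hS
  set e := S.equivFin with he
  let H : Arr K q S.card :=
    { al := fun i => toZ (e.symm i).1.1 - toZ (e.symm i).1.2
      r := fun _ => 0
      z := fun _ _ => 1
      w := fun _ _ => 0
      ga := 0
      g := 1 }
  obtain ⟨A, hAdet, hA⟩ := exists_A (F := H) (by
    intro i h
    have h1 := Finset.mem_offDiag.1 (e.symm i).2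
    refine h1.2.2 (Finsupp.ext fun j => ?_)
    have h2 := congrFun h j
    simp only [H, toZ, Pi.sub_apply, Pi.zero_apply, sub_eq_zero] at h2
    exact_mod_cast h2)
  obtain ⟨s0, hs0, hmax⟩ := psi.support.exists_max_image (fun s => A 0 ⬝ᵥ toZ s)
    (MvPolynomial.support_nonempty.2 hpsi)
  refine ⟨A, hAdet, s0, hs0, fun s hs hne => ?_⟩
  have hmem : (s0, s) ∈ S := by
    rw [hS, Finset.mem_offDiag]
    exact ⟨hs0, hs, fun h => hne h.symm⟩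
  have h1 := hA (e ⟨(s0, s), hmem⟩)
  have h2 : H.al (e ⟨(s0, s), hmem⟩) = toZ s0 - toZ s := by
    show toZ (e.symm (e ⟨(s0, s), hmem⟩)).1.1 - toZ (e.symm (e ⟨(s0, s), hmem⟩)).1.2 = _
    rw [Equiv.symm_apply_apply]
  rw [h2] at h1
  rcases h1 with h1 | h1
  · exact h1
  · exfalso
    have h3 := h1 0
    rw [dotProduct_sub] at h3
    have := hmax s hs
    linarith

/-- the polynomial `ψ` divided by its largest monomial at the end -/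
noncomputable def Wd (σ : K →+* ℂ) (psi : MvPolynomial (Fin (q + 1)) K)
    (A : Fin (q + 1) → Fin (q + 1) → ℤ) (s0 : Fin (q + 1) →₀ ℕ) (u : (Fin q → ℂ) × ℂ) : ℂ :=
  ∑ s ∈ psi.support, σ (psi.coeff s) * mmon (fun k => (A k ⬝ᵥ (toZ s0 - toZ s)).toNat) u

theorem contDiff_Wd (σ : K →+* ℂ) (psi : MvPolynomial (Fin (q + 1)) K)
    (A : Fin (q + 1) → Fin (q + 1) → ℤ) (s0 : Fin (q + 1) →₀ ℕ) :
    ContDiff ℂ 2 (Wd σ psi A s0) := by
  unfold Wd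
  exact ContDiff.sum fun s _ => contDiff_const.mul (contDiff_mmon _)

theorem Wd_zero (σ : K →+* ℂ) {psi : MvPolynomial (Fin (q + 1)) K}
    {A : Fin (q + 1) → Fin (q + 1) → ℤ} {s0 : Fin (q + 1) →₀ ℕ} (hs0 : s0 ∈ psi.support)
    (hs : ∀ s ∈ psi.support, s ≠ s0 → ∀ k, 0 < A k ⬝ᵥ (toZ s0 - toZ s)) :
    Wd σ psi A s0 0 ≠ 0 := by
  unfold Wd
  rw [Finset.sum_eq_single s0]
  · rw [mmon_zero_eq fun j => by rw [sub_self, dotProduct_zero]; rfl, mul_one]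
    exact (map_ne_zero σ).2 (mem_support_iff.1 hs0)
  · intro s h1 h2
    have h3 := hs s h1 h2 0
    rw [mmon_zero_ne ⟨0, by omega⟩, mul_zero]
  · exact fun h => absurd hs0 h

theorem eval_psi_xe (σ : K →+* ℂ) {psi : MvPolynomial (Fin (q + 1)) K}
    {A : Fin (q + 1) → Fin (q + 1) → ℤ} {s0 : Fin (q + 1) →₀ ℕ}
    (hs : ∀ s ∈ psi.support, s ≠ s0 → ∀ k, 0 < A k ⬝ᵥ (toZ s0 - toZ s))
    {u : (Fin q → ℂ) × ℂ} (hu : ∀ i, crd u i ≠ 0) :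
    eval₂ σ (xe A u) psi = (∏ k, crd u k ^ (-(A k ⬝ᵥ toZ s0))) * Wd σ psi A s0 u := by
  unfold Wd
  rw [eval₂_eq', Finset.mul_sum]
  refine Finset.sum_congr rfl fun s h1 => ?_
  rw [mul_left_comm]
  congr 1
  have h2 : ∏ j, xe A u j ^ s j = ∏ k, crd u k ^ (-(A k ⬝ᵥ toZ s)) := by
    rw [← prod_xe hu]
    refine Finset.prod_congr rfl fun j _ => ?_
    unfold toZ
    rw [zpow_natCast]
  rw [h2, mmon_eq, ← Finset.prod_mul_distrib]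
  refine Finset.prod_congr rfl fun k _ => ?_
  rw [← zpow_natCast, ← zpow_add₀ (hu k)]
  congr 1
  have h3 : 0 ≤ A k ⬝ᵥ (toZ s0 - toZ s) := by
    by_cases h : s = s0
    · rw [h, sub_self, dotProduct_zero]
    · exact (hs s h1 h k).le
  rw [Int.toNat_of_nonneg h3, dotProduct_sub]
  ring

theorem eval_fib (σ : K →+* ℂ) {psi : MvPolynomial (Fin (q + 1)) K} {δ : Fin (q + 1) → ℤ}
    {A : Fin (q + 1) → Fin (q + 1) → ℤ} {s0 : Fin (q + 1) →₀ ℕ}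
    (hs : ∀ s ∈ psi.support, s ≠ s0 → ∀ k, 0 < A k ⬝ᵥ (toZ s0 - toZ s))
    {u : (Fin q → ℂ) × ℂ} (hu : ∀ i, crd u i ≠ 0) :
    eval₂ σ (vals (xe A u)) ((fib psi δ).Phi 1) =
      (∏ k, crd u k ^ (-(A k ⬝ᵥ (toZ s0 - δ)))) * Wd σ psi A s0 u := by
  rw [eval_Phi (xe_ne hu), map_one, one_mul, Finset.univ_eq_empty (α := Fin 0),
    Finset.prod_empty, mul_one]
  show eval₂ σ (xe A u) psi * ∏ j, xe A u j ^ (-δ) j = _
  rw [eval_psi_xe σ hs hu, prod_xe hu, mul_right_comm, ← Finset.prod_mul_distrib]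
  congr 1
  refine Finset.prod_congr rfl fun k _ => ?_
  rw [← zpow_add₀ (hu k)]
  congr 1
  rw [dotProduct_sub, dotProduct_neg]
  ring

variable {d m : ℕ} {F : Arr K d m}

theorem exists_maps (σ : K →+* ℂ) {T : Fin (d + 1) → Fin m} (hT : (F.mat T).det ≠ 0)
    {P : Fin (d + 1) → ℂ} (hP : ∀ j, P j ≠ 0) (hα : ∀ e, F.al e ≠ 0)
    (hz : ∀ e i, F.z e i ≠ 0) (hg : F.g ≠ 0) {k : ∀ l, Fin (F.r (T l))}
    (hk : ∀ l, ∏ j, P j ^ F.al (T l) j = σ (F.z (T l) (k l).succ))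
    {D : ℕ} (e : Fin (d + 1) ⊕ Fin (q + 1) ≃ Fin (D + 1))
    {psi : MvPolynomial (Fin (q + 1)) K} {δ : Fin (q + 1) → ℤ}
    {A : Fin (q + 1) → Fin (q + 1) → ℤ} (hAdet : (Matrix.of A).det ≠ 0)
    {s0 : Fin (q + 1) →₀ ℕ} (hs0 : s0 ∈ psi.support)
    (hs : ∀ s ∈ psi.support, s ≠ s0 → ∀ k, 0 < A k ⬝ᵥ (toZ s0 - toZ s))
    (hin : Interior psi δ) {I : Type*} [Fintype I] (Tp : I → Fin (d + 1) → Fin m)
    (kp : ∀ i l, Fin (F.r (Tp i l))) :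
    ∃ D0 : ℝ, D0 ≠ 0 ∧ ∀ ε : ℝ, 0 < ε →
    ∃ Λ : ℝ, 1 < Λ ∧ ∀ c : ℂ, Λ ≤ ‖c‖ → 0 < Real.log ‖c‖ ∧
      ∃ (X : (Fin D → ℝ) → Fin (d + 1) → ℂ) (Y : (Fin D → ℝ) → Fin (q + 1) → ℂ),
        ContDiff ℝ 2 X ∧ ContDiff ℝ 2 Y ∧ (∀ θ i, X (θ + Pi.single i 1) = X θ) ∧
        (∀ θ i, Y (θ + Pi.single i 1) = Y θ) ∧ (∀ θ j, X θ j ≠ 0) ∧ (∀ θ j, Y θ j ≠ 0) ∧
        (∀ θ, c * eval₂ σ (vals (X θ)) (F.Phi 1) =
          eval₂ σ (vals (Y θ)) ((fib psi δ).Phi 1)) ∧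
        (∀ θ, eval₂ σ (vals (Y θ)) ((fib psi δ).Phi 1) ≠ 0) ∧
        (∀ θ, ∃ j, eval₂ σ (vals (X θ)) (dlog j (F.Phi 1)) ≠ 0) ∧
        ∀ i, ∀ z : Fin (D + 1) → (Fin D → ℝ) → ℂ, (∀ l, Good (z l)) →
          (∀ l θ, z (e (Sum.inl l)) θ * vf σ F (X θ) (Tp i l) 0 =
            vf σ F (X θ) (Tp i l) (kp i l).succ) →
          (∀ l θ, z (e (Sum.inr l)) θ = Y θ l) →
          |pairing z / (-Real.log ‖c‖) - F.lead σ T P (Tp i) (kp i) * D0| ≤ ε := by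
  classical
  have hAne : ∀ k, A k ≠ 0 := by
    intro k h
    exact hAdet (Matrix.det_eq_zero_of_row_eq_zero k fun j => by
      rw [Matrix.of_apply, h]
      rfl)
  have hnz : ∀ k, 0 < A k ⬝ᵥ (toZ s0 - δ) := by
    intro k
    obtain ⟨s, h1, h2⟩ := hin (A k) (hAne k)
    have h3 : A k ⬝ᵥ δ < A k ⬝ᵥ toZ s := h2
    have h4 : A k ⬝ᵥ toZ s ≤ A k ⬝ᵥ toZ s0 := by
      by_cases h : s = s0
      · rw [h]
      · have := hs s h1 h k
        rw [dotProduct_sub] at this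
        linarith
    rw [dotProduct_sub]
    linarith
  obtain ⟨nn, hnn⟩ : ∃ nn : Fin (q + 1) → ℕ, ∀ k, A k ⬝ᵥ (toZ s0 - δ) = (nn k : ℤ) + 1 :=
    ⟨fun k => (A k ⬝ᵥ (toZ s0 - δ) - 1).toNat, fun k => by
      have := hnz k
      rw [Int.toNat_of_nonneg (by omega)]
      ring⟩
  obtain ⟨D0, hD0, hE⟩ := exists_map (F := F) σ hT hP hα hz hg hk e hAdet nn
    (contDiff_Wd σ psi A s0) (Wd_zero σ hs0 hs)
    (κ := Unit) (V := fun _ => Wd σ psi A s0)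
    (fun _ => contDiff_Wd σ psi A s0) (fun _ => Wd_zero σ hs0 hs) (J := Empty) Tp kp
    (fun j _ => j.elim) (fun j _ => j.elim)
  refine ⟨D0, hD0, fun ε hε => ?_⟩
  obtain ⟨η0, hη0, hX⟩ := hE ε hε
  have hinvpos : 0 < 1 / η0 := by positivity
  refine ⟨1 / η0 + 2, by linarith, fun c hc => ?_⟩
  have hln : 0 < ‖c‖ := by linarith
  have hc0 : c ≠ 0 := norm_pos_iff.1 hln
  have hη : ‖c⁻¹‖ < η0 := by
    rw [norm_inv, inv_lt_comm₀ hln hη0, ← one_div]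
    linarith
  obtain ⟨hlog, X, U, hXc, hUc, hXp, hUp, hX0, hU0, hXU, hV, hgr, hS1, -⟩ :=
    hX c⁻¹ (inv_ne_zero hc0) hη
  have hlogeq : Real.log ‖c⁻¹‖ = -Real.log ‖c‖ := by rw [norm_inv, Real.log_inv]
  rw [hlogeq] at hlog hS1
  have heq : ∀ θ, c * eval₂ σ (vals (X θ)) (F.Phi 1) =
      eval₂ σ (vals (xe A (U θ))) ((fib psi δ).Phi 1) ∧
      eval₂ σ (vals (xe A (U θ))) ((fib psi δ).Phi 1) ≠ 0 := by
    intro θ
    have h1 := hXU θ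
    have hW : Wd σ psi A s0 (U θ) ≠ 0 := hV θ ()
    rw [eval_fib σ hs (hU0 θ)]
    have h5 : (∏ s, crd (U θ) s ^ (nn s + 1)) *
        ∏ s, crd (U θ) s ^ (-(A s ⬝ᵥ (toZ s0 - δ))) = 1 := by
      rw [← Finset.prod_mul_distrib]
      refine Finset.prod_eq_one fun s _ => ?_
      rw [← zpow_natCast, ← zpow_add₀ (hU0 θ s), hnn]
      push_cast
      rw [add_neg_cancel, zpow_zero]
    have h6 : (∏ s, crd (U θ) s ^ (-(A s ⬝ᵥ (toZ s0 - δ)))) ≠ 0 := right_ne_zero_of_mul (by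
      rw [h5]
      exact one_ne_zero)
    refine ⟨?_, mul_ne_zero h6 hW⟩
    have h7 : eval₂ σ (vals (X θ)) (F.Phi 1) =
        c⁻¹ * ((∏ s, crd (U θ) s ^ (-(A s ⬝ᵥ (toZ s0 - δ)))) * Wd σ psi A s0 (U θ)) := by
      rw [← h1]
      calc eval₂ σ (vals (X θ)) (F.Phi 1) = eval₂ σ (vals (X θ)) (F.Phi 1) *
            (((∏ s, crd (U θ) s ^ (nn s + 1)) *
              ∏ s, crd (U θ) s ^ (-(A s ⬝ᵥ (toZ s0 - δ)))) *
              ((Wd σ psi A s0 (U θ))⁻¹ * Wd σ psi A s0 (U θ))) := by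
            rw [h5, inv_mul_cancel₀ hW, one_mul, mul_one]
        _ = _ := by ring
    rw [h7, ← mul_assoc, mul_inv_cancel₀ hc0, one_mul]
  exact ⟨by linarith, X, fun θ => xe A (U θ), hXc, contDiff_xe' hUc hU0, hXp,
    fun θ i => by simp only [hUp], hX0, fun θ => xe_ne (hU0 θ), fun θ => (heq θ).1,
    fun θ => (heq θ).2, hgr, fun i z h1 h2 h3 => hS1 i z h1 h2 h3⟩

end Pool.Agent.K7.H1.TT
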