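import Pool.Agent.K7.H1.TT.Eng
import Pool.Agent.K7.H1.PP.Main
set_option autoImplicit false

/-!
The regulators of the symbols of the fibrations over toric arrangements are independent.
-/

namespace Pool.Agent.K7.H1.TT

open MvPolynomial

open Pool.Agent.TH826.MK (KQ symb Torus Good pairing)

open Pool.Agent.TH826.SX (det_ne_zero_near)

open Pool.Agent.TH577.UA (det_ne_zero_of_tri)

open Pool.Agent.K7.H1.TO Pool.Agent.K7.H1.TO.Arr

open Pool.Agent.K7.H1.PP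

variable {K : Type*} [Field K] {d q m : ℕ} {F : Arr K d m} {psi : MvPolynomial (Fin (q + 1)) K}
  {δ : Fin (q + 1) → ℤ}

theorem exists_tori (σ : K →+* ℂ) (hα : ∀ e, F.al e ≠ 0) (hz : ∀ e i, F.z e i ≠ 0)
    (hinj : ∀ e, Function.Injective (F.z e)) (hg : F.g ≠ 0) (hpsi : psi ≠ 0)
    (hin : Interior psi δ) :
    ∃ C : ℝ, 0 < C ∧ ∀ lam : K, C ≤ ‖σ lam‖ →
      ∃ Γ : Ix σ F → Torus (PRing F (fib psi δ) lam) (d + 1 + q),
        (∀ s θ x, (Γ s).e θ (pcst F (fib psi δ) lam x) = σ x) ∧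
        (∀ s θ, ∃ j, (Γ s).e θ (px F (fib psi δ) lam (dlog j (F.Phi 1))) ≠ 0) ∧
        (Matrix.of fun t o : Ix σ F =>
          (Γ t).reg (symb (fent F psi δ lam o.1.1 o.1.2))).det ≠ 0 := by
  classical
  choose P hP hk hn using fun s : Ix σ F => s.2.2.2
  set e1 : Fin (d + 1) ⊕ Fin (q + 1) ≃ Fin (d + 1 + q + 1) := finSumFinEquiv with he1
  obtain ⟨A, hAdet, s0, hs0, hs⟩ := exists_A2 hpsi
  choose D1 hD1 hE1 using fun s : Ix σ F => exists_maps (F := F) σ s.2.2.1 (hP s) hα hz hg (hk s)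
    e1 hAdet hs0 hs hin (fun i : Ix σ F => i.1.1) (fun i => i.1.2)
  set M0 : Matrix (Ix σ F) (Ix σ F) ℝ := Matrix.of fun s s' =>
    F.lead σ s.1.1 (P s) s'.1.1 s'.1.2 * D1 s with hM0
  have hM : M0.det ≠ 0 := by
    refine det_ne_zero_of_tri (fun s : Ix σ F => ∑ l, (s.1.1 l : ℕ)) _ (fun s => ?_)
      (fun s s' h => ?_)
    · exact mul_ne_zero (lead_self σ hinj s.2.2.1 (hk s)) (hD1 s)
    · have h' : F.lead σ s.1.1 (P s) s'.1.1 s'.1.2 ≠ 0 := left_ne_zero_of_mul h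
      rcases lead_other σ hinj s.2.1 s.2.2.1 (hk s) (hn s) s'.2.1 h' with h1 | h1
      · exact Or.inl (Subtype.ext h1)
      · exact Or.inr h1
  obtain ⟨ε, hε, hdet⟩ := det_ne_zero_near M0 hM
  have hε2 : 0 < ε / 2 := by linarith
  choose Λ hΛ1 hΛ using fun s : Ix σ F => hE1 s (ε / 2) hε2
  have hsum : 0 ≤ ∑ s, |Λ s| := Finset.sum_nonneg fun J _ => abs_nonneg _
  have hΛC : ∀ s, Λ s ≤ ∑ s, |Λ s| + 2 := by
    intro s
    have h1 := Finset.single_le_sum (f := fun s => |Λ s|) (fun s _ => abs_nonneg _)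
      (Finset.mem_univ s)
    have h2 := le_abs_self (Λ s)
    have h3 : |Λ s| ≤ ∑ s, |Λ s| := h1
    linarith
  refine ⟨∑ s, |Λ s| + 2, by linarith, fun lam hσ => ?_⟩
  have hlog : 0 < Real.log ‖σ lam‖ := Real.log_pos (by linarith)
  choose X Y hXc hYc hXp hYp hX0 hY0 hXY hne hgr hA using fun s => (hΛ s (σ lam)
    ((hΛC s).trans hσ)).2
  have hPt : ∀ s θ, PtP F (fib psi δ) lam σ (X s θ) (Y s θ) := fun s θ =>
    ⟨hX0 s θ, hY0 s θ, hne s θ, by
      rw [eval_Phi_smul F (hX0 s θ)]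
      exact hXY s θ⟩
  set Γ : Ix σ F → Torus (PRing F (fib psi δ) lam) (d + 1 + q) :=
    fun s => mkP (X s) (Y s) (hXc s) (hYc s) (hXp s) (hYp s) (hPt s) with hΓ
  refine ⟨Γ, fun s θ x => evP_cst (hPt s θ) x, fun s θ => ?_, ?_⟩
  · obtain ⟨j, hj⟩ := hgr s θ
    exact ⟨j, by
      show evP (hPt s θ) (px F (fib psi δ) lam _) ≠ 0
      rw [evP_px]
      exact hj⟩
  have hc0 : -Real.log ‖σ lam‖ ≠ 0 := (neg_neg_of_pos hlog).ne
  have hlt : ε / 2 < ε := by linarith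
  have h1 : (Matrix.of fun t o : Ix σ F =>
      (Γ t).reg (symb (fent F psi δ lam o.1.1 o.1.2)) / (-Real.log ‖σ lam‖)).det ≠ 0 := by
    refine hdet _ fun s s' => ?_
    rw [hM0, Matrix.of_apply, Matrix.of_apply, Torus.reg_symb]
    refine lt_of_le_of_lt (hA s s' (fun l => (Γ s).fn
      (fent F psi δ lam s'.1.1 s'.1.2 l : PRing F (fib psi δ) lam))
      (fun l => (Γ s).good _) (fun l θ => ?_) (fun l θ => ?_)) hlt
    · show evP (hPt s θ) ((Fin.append (entx F (fib psi δ) lam s'.1.1 s'.1.2)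
          (uy F (fib psi δ) lam) (Fin.castAdd (q + 1) l) : (PRing F (fib psi δ) lam)ˣ) :
            PRing F (fib psi δ) lam) * _ = _
      rw [Fin.append_left]
      exact evP_entx (hPt s θ) _ _ _
    · show evP (hPt s θ) ((Fin.append (entx F (fib psi δ) lam s'.1.1 s'.1.2)
          (uy F (fib psi δ) lam) (Fin.natAdd (d + 1) l) : (PRing F (fib psi δ) lam)ˣ) :
            PRing F (fib psi δ) lam) = _
      rw [Fin.append_right]
      exact evP_uy (hPt s θ) _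
  intro h0
  refine h1 ?_
  have h2 : (Matrix.of fun t o : Ix σ F =>
      (Γ t).reg (symb (fent F psi δ lam o.1.1 o.1.2)) / (-Real.log ‖σ lam‖)) =
      (-Real.log ‖σ lam‖)⁻¹ • Matrix.of fun t o : Ix σ F =>
        (Γ t).reg (symb (fent F psi δ lam o.1.1 o.1.2)) := by
    ext t o
    rw [Matrix.of_apply, Matrix.smul_apply, Matrix.of_apply, smul_eq_mul]
    ring
  rw [h2, Matrix.det_smul, h0, mul_zero]

end Pool.Agent.K7.H1.TT
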