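import Pool.Agent.K7.H1.TT.Def
import Pool.Agent.K7.H1.PP.Unr
import Pool.Agent.K7.H52.TF.Unr
set_option autoImplicit false

/-!
The symbols of the fibrations over toric arrangements are unramified.
-/

namespace Pool.Agent.K7.H1.TT

open MvPolynomial

open scoped WithZero

open Pool.Agent.TH826.MK

open Pool.Agent.TH826.EF (onePart onePart_le)

open Pool.Agent.TH690.SF (mem_onePart_of_comp)

open Pool.Agent.K7.H1.TO

open Pool.Agent.K7.H1.PP

open Pool.Agent.K7.H52.TF (mono Tempered)

section dich

variable {K : Type*} [Field K] {q : ℕ} {L : Type*} [Field L]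

/-- If the value of the equation is integral, then it and the coordinates are units, or the value of
`ψ` is smaller than that of a monomial. -/
theorem psi_dich (f : K →+* L) (v : Valuation L ℤᵐ⁰) {psi : MvPolynomial (Fin (q + 1)) K}
    {δ : Fin (q + 1) → ℤ} (hin : Interior psi δ) {y : Fin (q + 1) → Lˣ}
    (h : v (phiL f (fib psi δ) y) ≤ 1) :
    (∃ s ∈ psi.support, v (eval₂ f (fun l => (y l : L)) psi) < v (∏ l, (y l : L) ^ s l)) ∨
      (∀ j, v (y j : L) = 1) ∧ v (phiL f (fib psi δ) y) = 1 := by
  classical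
  choose a ha using fun j => exists_ord v (y j)
  have hphi : phiL f (fib psi δ) y = eval₂ f (fun l => (y l : L)) psi * (mono y (-δ) : L) := by
    unfold phiL
    rw [Finset.univ_eq_empty (α := Fin 0), Finset.prod_empty, mul_one]
    rfl
  have hmono : ∀ s : Fin (q + 1) →₀ ℕ, v (∏ l, (y l : L) ^ s l) =
      WithZero.exp (∑ l, a l * (s l : ℤ)) := by
    intro s
    rw [map_prod]
    have hs : ∀ l, v ((y l : L) ^ s l) = WithZero.exp (a l * (s l : ℤ)) := fun l => by
      rw [map_pow, ha, ← WithZero.exp_nsmul, nsmul_eq_mul, mul_comm]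
    simp only [hs]
    induction (Finset.univ : Finset (Fin (q + 1))) using Finset.induction_on with
    | empty => simp
    | insert i t hi ih => rw [Finset.prod_insert hi, Finset.sum_insert hi, ih, WithZero.exp_add]
  by_cases hc : ∃ s ∈ psi.support, v (eval₂ f (fun l => (y l : L)) psi) < v (∏ l, (y l : L) ^ s l)
  · exact Or.inl hc
  · right
    push Not at hc
    have hval : v (phiL f (fib psi δ) y) = v (eval₂ f (fun l => (y l : L)) psi) *
        WithZero.exp (-(∑ j, a j * δ j)) := by
      rw [hphi, map_mul, v_mono v ha, dotProduct_neg]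
      rfl
    have ha0 : a = 0 := by
      by_contra hne
      obtain ⟨s, hs, hlt⟩ := hin a hne
      have h1 := hc s hs
      rw [hmono] at h1
      have h2 : WithZero.exp (∑ l, a l * (s l : ℤ)) * WithZero.exp (-(∑ j, a j * δ j)) ≤
          (1 : ℤᵐ⁰) := by
        refine le_trans (mul_le_mul' h1 le_rfl) ?_
        rw [← hval]
        exact h
      rw [← WithZero.exp_add, ← WithZero.exp_zero] at h2
      have h3 := WithZero.exp_le_exp.1 h2
      linarith
    have hy : ∀ j, v (y j : L) = 1 := fun j => by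
      rw [ha, ha0]
      rfl
    refine ⟨hy, le_antisymm h ?_⟩
    obtain ⟨s, hs, -⟩ := hin (Pi.single 0 1) (fun h0 => by
      have := congrFun h0 0
      rw [Pi.single_eq_same] at this
      exact one_ne_zero this)
    have h1 := hc s hs
    rw [hmono, ha0] at h1
    rw [hval, ha0]
    simpa using h1

end dich

section main

variable {K : Type*} [Field K] {d q m : ℕ} {F : Arr K d m}
  {psi : MvPolynomial (Fin (q + 1)) K} {δ : Fin (q + 1) → ℤ} {lam : K} {L : Type*} [Field L]
  (f : PRing F (fib psi δ) lam →+* L)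

theorem sym_mem (hzF : ∀ e i, ∃ n : ℕ, 0 < n ∧ F.z e i ^ n = 1)
    (hgF : ∀ k, IsIntegral ℤ (F.g.coeff k)) (hin : Interior psi δ)
    (hT : ∀ (f : K →+* L) (v : Valuation L ℤᵐ⁰) (y : Fin (q + 1) → Lˣ),
      (∃ s ∈ psi.support, v (eval₂ f (fun l => (y l : L)) psi) < v (∏ l, (y l : L) ^ s l)) →
        symb y ∈ onePart v (q + 1))
    (hlam : IsIntegral ℤ lam) {T : Fin (d + 1) → Fin m} (hTd : (F.mat T).det ≠ 0)
    (k : ∀ l, Fin (F.r (T l))) :
    KQ.map (d + 1 + (q + 1)) f (symb (fent F psi δ lam T k)) ∈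
      Unramified L (d + 1 + (q + 1)) := by
  rw [KQ.map_symb]
  unfold Unramified
  simp only [Submodule.mem_iInf]
  intro v _
  set fc : K →+* L := f.comp (pcst F (fib psi δ) lam) with hfc
  set x : Fin (d + 1) → Lˣ := xL f with hx
  set y : Fin (q + 1) → Lˣ := yL f with hy
  set z : Fin (d + 1 + (q + 1)) → Lˣ := fun i => Units.map (f : PRing F (fib psi δ) lam →* L)
    (fent F psi δ lam T k i) with hz
  have hzx : ∀ l, (z (Fin.castAdd (q + 1) l) : L) =
      facL fc F x (T l) (k l).succ / facL fc F x (T l) 0 := by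
    intro l
    simp only [hz, fent]
    rw [Fin.append_left, hfc, hx, ← (hom_x f).1, ← (hom_x f).1]
    unfold entx
    rw [map_div, Units.val_div_eq_div_val]
    rfl
  have hzy : ∀ l, z (Fin.natAdd (d + 1) l) = y l := by
    intro l
    simp only [hz, fent]
    rw [Fin.append_right]
    rfl
  show symb z ∈ unitPart v (d + 1 + (q + 1))
  by_cases hl : ∃ l, v (mono x (F.al (T l)) : L) ≠ 1
  · obtain ⟨l, hl⟩ := hl
    obtain ⟨n, hn, h⟩ := ent_pow v (roots_map fc (hzF (T l) (k l).succ))
      (roots_map fc (hzF (T l) 0)) hl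
    refine mem_unitPart_of_pow v (Fin.castAdd (q + 1) l) _ hn.ne' ?_
    rw [hzx]
    exact h
  · push Not at hl
    have hx1 := v_of_mat v hTd hl
    have h1 := v_phiL_le fc v hzF hgF hx1
    have heq := eq_yx f
    have hc : v (f (pcst F (fib psi δ) lam lam)) ≤ 1 := int_map fc v hlam
    have h2 : v (phiL fc (fib psi δ) y) ≤ 1 := by
      rw [hfc, hy, heq, map_mul]
      exact mul_le_one' hc h1
    rcases psi_dich fc v hin h2 with h3 | ⟨hy1, h3⟩
    · have h4 := hT fc v y h3
      refine onePart_le v (mem_onePart_of_comp v z (Fin.natAdd_injective (q + 1) (d + 1)) ?_)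
      have e : (fun l => z (Fin.natAdd (d + 1) l)) = y := funext hzy
      rw [e]
      exact h4
    · rw [hfc, hy, heq, map_mul] at h3
      have h4 := (Arr.v_mul_eq_one hc h1 h3).2
      have h5 := v_facL_one fc v hzF hgF hx1 h4
      refine Submodule.subset_span ⟨_, fun k' => ?_, rfl⟩
      refine Fin.addCases (fun l => ?_) (fun l => ?_) k'
      · rw [hzx, map_div₀, h5, h5, div_one]
      · rw [hzy]
        exact hy1 l

end main

end Pool.Agent.K7.H1.TT
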